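import Mathlib
import Pool.Agent.R930.LocalKern
import Pool.Agent.TH776.FM.RepDefs

/-!
# The Mumford-Tate conjecture for `A ^ n × Z`, with local operators from several places of arbitrary type

Let `A` be an abelian variety over a number field `k`, `ℓ` a prime, `V = V_ℓ(A)` the rational Tate module
with the action `ρ` of the Galois group `Γ`, `χ` the cyclotomic character and `ω` the Weil pairing of a
polarization. Let `K` be the algebraic closure of `ℚ_ℓ` and `X = K ⊗ V`. A subspace of `X` is strongly
irreducible if it is a minimal nonzero subspace stable under a subgroup of finite index. By theorems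
of Faltings `V` is semisimple, also over finite extensions of `k`.

Let `Z` be ANY smooth projective variety over `k`, `W = H^*(Z)` its `ℓ`-adic cohomology (the sum of all
cohomology groups) with the action `τ` of `Γ`. All the cohomology groups of `A ^ n × Z` are sums of
subspaces of tensor products of `W` and of copies of `V` (up to Tate twists), and by Poincaré duality all
tensors on `W` are, up to Tate twists, multilinear forms on `W`. Let `G` be the group of the
`ℚ_ℓ`-points of the Mumford-Tate group of `H^1(A) ⊕ H^*(Z)` (with the Tate structure), with its actions `R`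
on `V` and `T` on `W` and its character `ν` on the Tate structure. By the theorem of Faltings the Tate
classes of degree two on `A × A` are divisor classes, so that they are fixed by `G` (`hdegree`).

The Mumford-Tate conjecture `G_ℓ° = MT` consists of two statements: the Hodge tensors are Tate tensors
(so `G_ℓ°` is contained in `MT`; this is known (Deligne, André) if `Z` is of abelian type, for instance a
product of abelian varieties, curves and K3 surfaces), and the Tate tensors are Hodge tensors (so, as
`MT` is reductive, `MT` is contained in `G_ℓ°` if `W` is semisimple): all multilinear forms which are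
multiplied by `χ ^ j` under a subgroup of finite index of the Galois group are multiplied by `ν ^ j`
under `G` (`TateTensorsAreHodge`).

The condition on `A` (`MixedPlaces`): all strongly irreducible subspaces `U` of `X` are symplectic (the
simple factors of `A` over the algebraic closure of `k` are of type I or II in the classification of
Albert), and for each of them there are local operators in general position (`HasLocalOperators`, see
`Pool/Agent/R855/MT/Loc.lean`). The local operators are obtained from

* the operators `γ - 1`, for the elements `γ` of the group with `(γ - 1) ^ 2 = 0` (in the inertia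
  groups of places of bad semistable reduction), and
* the slope operators of the Frobenius elements at places of good or of bad reduction, of any Newton
  polygon,

by linear combinations, commutators and components; it is required that for each `U` there is a local
operator `N` with `N ^ 2 = 0` such that the defects of `N` on `U` (the rank of `N` on `U` and the
multiplicities of the nonzero eigenvalues on `U` of the operators `N N'`, `N'` local, `N' ^ 2 = 0`) have
greatest common divisor one, or that one defect is two, or odd, or prime to the dimension of `U`.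

The condition on `Z`: the Galois action on `W` is potentially abelian (for instance if `Z` is of CM
type), or, much more generally, for every piece `U` every subgroup of finite index contains an element
which acts trivially on `W`, with `χ = 1`, and which acts nontrivially on `U` (`KernelActs`). This holds
if for every `U` there is a place (of residue characteristic different from `ℓ`) at which `Z` has
potentially good reduction and at which an inertia group acts on `U` through an infinite group; or if the
Lie algebras of the images of `Γ` in `GL(V)` and `GL(W)` have no common nonabelian quotient.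

The theorem: the Tate tensors of `H^1(A) ⊕ H^*(Z)` (so of the cohomology of all the varieties
`A ^ n × Z`) are Hodge tensors if and only if the Tate tensors of `H^*(Z)` are Hodge tensors. So, if
the Hodge tensors are Tate tensors, the Mumford-Tate conjecture for all cohomology groups of all
`A ^ n × Z` is equivalent to the Mumford-Tate conjecture for `H^*(Z)`.

The proof. Let `N` be the kernel of `Γ` on `W` and on `χ`. The local operators normalize all spaces of
operators that are stable under `Γ` (`Pool/Agent/R930/LocalKern.lean`), in particular the Lie algebra `𝔫`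
of the operators that kill all forms invariant under a subgroup of finite index of `N`. By the condition
on `Z` the Lie algebra `𝔫` is not zero on `U`, and then, by the condition on `A`, it contains square-zero
elements of rank one on `U`. The forms on `X` invariant under a subgroup of finite index of `N` are
therefore generated in degree two by Tate forms for `Γ`.
-/

namespace Pool.Agent.Results.MP_c1bb77_ag.MixedPlacesSums

open Module TensorProduct Polynomial Pool.Agent.Y126.Notions Pool.Agent.R930
  Pool.Agent.TH776.FM Pool.Agent.H204R3.GP
open Pool.Agent.R855.MT (HasLocalOperators)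
open Pool.Agent.Results.MP_021685_ag.ProductsOverNumberFields (KernelActs PotentiallyAbelian)

noncomputable section

section defs

variable {k V Γ G : Type} [Field k] [AddCommGroup V] [Module k V] [Group Γ] [Group G]

/-- All Tate tensors are Hodge tensors: every multilinear form which is multiplied by `χ ^ j` under a
subgroup of finite index of the Galois group `Γ` is multiplied by `ν ^ j` under the Mumford-Tate group. -/
def TateTensorsAreHodge (ρ : Representation k Γ V) (χ : Γ →* k) (R : Representation k G V)
    (ν : G →* k) : Prop :=
  ∀ (s : ℕ) (j : ℤ) (φ : MultilinearMap k (fun _ : Fin s => V) k),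
    (∃ Δ : Subgroup Γ, Δ.FiniteIndex ∧ ∀ g ∈ Δ, ∀ v : Fin s → V,
      φ (fun i => ρ g (v i)) = χ g ^ j * φ v) →
    ∀ (h : G) (v : Fin s → V), φ (fun i => R h (v i)) = ν h ^ j * φ v

end defs

/-- All strongly irreducible subspaces are symplectic and have local operators in general position. -/
def MixedPlaces {ℓ : ℕ} [Fact ℓ.Prime] {V Γ : Type} [AddCommGroup V] [Module ℚ_[ℓ] V]
    [FiniteDimensional ℚ_[ℓ] V] [Group Γ] (ρ : Representation ℚ_[ℓ] Γ V) (χ : Γ →* ℚ_[ℓ]) : Prop :=
  ∀ U, StronglyIrreducible (extend (AlgebraicClosure ℚ_[ℓ]) ρ) U →
    IsSymplectic (extend (AlgebraicClosure ℚ_[ℓ]) ρ)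
      ((algebraMap ℚ_[ℓ] (AlgebraicClosure ℚ_[ℓ]) : ℚ_[ℓ] →* _).comp χ) U ∧
    HasLocalOperators (extend (AlgebraicClosure ℚ_[ℓ]) ρ)
      ((algebraMap ℚ_[ℓ] (AlgebraicClosure ℚ_[ℓ]) : ℚ_[ℓ] →* _).comp χ) U

/-- The representation is given, in a basis of the Tate module, by integral matrices. -/
def Integral {ℓ : ℕ} [Fact ℓ.Prime] {V Γ : Type} [AddCommGroup V] [Module ℚ_[ℓ] V]
    [Group Γ] (ρ : Representation ℚ_[ℓ] Γ V) : Prop :=
  ∃ (d : ℕ) (b : Basis (Fin d) ℚ_[ℓ] V), ∀ g i j, ‖LinearMap.toMatrix b b (ρ g) i j‖ ≤ 1

theorem result (ℓ : ℕ) [Fact ℓ.Prime] {V Γ : Type} [AddCommGroup V] [Module ℚ_[ℓ] V]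
    [FiniteDimensional ℚ_[ℓ] V] [Group Γ]
    -- the abelian variety
    (ρ : Representation ℚ_[ℓ] Γ V) (χ : Γ →* ℚ_[ℓ])
    (ω : V →ₗ[ℚ_[ℓ]] V →ₗ[ℚ_[ℓ]] ℚ_[ℓ]) (hA : IsTateModule ρ χ ω)
    (hintegral : Integral ρ) (hplaces : MixedPlaces ρ χ)
    -- the cohomology of `Z`
    {W : Type} [AddCommGroup W] [Module ℚ_[ℓ] W] [FiniteDimensional ℚ_[ℓ] W]
    (τ : Representation ℚ_[ℓ] Γ W)
    (hW : PotentiallyAbelian τ ∨ KernelActs (extend (AlgebraicClosure ℚ_[ℓ]) ρ)
      ((algebraMap ℚ_[ℓ] (AlgebraicClosure ℚ_[ℓ]) : ℚ_[ℓ] →* _).comp χ) τ)
    -- the Mumford-Tate group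
    {G : Type} [Group G] (R : Representation ℚ_[ℓ] G V) (T : Representation ℚ_[ℓ] G W)
    (ν : G →* ℚ_[ℓ])
    (hdegree : ∀ B : V →ₗ[ℚ_[ℓ]] V →ₗ[ℚ_[ℓ]] ℚ_[ℓ], IsTate2 ρ χ B →
      ∀ h u v, B (R h u) (R h v) = ν h * B u v) :
    TateTensorsAreHodge (ρ.prod τ) χ (R.prod T) ν ↔ TateTensorsAreHodge τ χ T ν := by
  constructor
  · intro H s j ψ hψ h w
    obtain ⟨Δ, hΔ, hψ⟩ := hψ
    exact H s j (ψ.compLinearMap fun _ => LinearMap.snd ℚ_[ℓ] V W)
      ⟨Δ, hΔ, fun g hg v => hψ g hg fun i => (v i).2⟩ h fun i => (0, w i)
  · intro H
    refine fixes_prod (fun β _ j => ?_) hdegree H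
    obtain ⟨d, b, hintegral⟩ := hintegral
    obtain ⟨halt, hnondeg, hω, hsemisimple⟩ := hA
    refine kuenneth_local ω halt hnondeg hω hsemisimple hintegral hplaces (formRep τ χ j β) ?_
    rcases hW with ⟨Δ, hΔ, h⟩ | h
    · left
      refine ⟨Δ, hΔ, fun g hg g' hg' => ?_⟩
      refine LinearMap.ext fun ψ => MultilinearMap.ext fun w => ?_
      change χ g ^ j * (χ g' ^ j * ψ (fun i => τ g'⁻¹ (τ g⁻¹ (w i)))) =
        χ g' ^ j * (χ g ^ j * ψ (fun i => τ g⁻¹ (τ g'⁻¹ (w i))))
      have h1 : ∀ w : W, τ g'⁻¹ (τ g⁻¹ w) = τ g⁻¹ (τ g'⁻¹ w) := fun w =>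
        congrArg (fun F : Module.End ℚ_[ℓ] W => F w) (h _ (Δ.inv_mem hg') _ (Δ.inv_mem hg))
      simp only [h1]
      ring
    · right
      intro U hU Δ hΔ
      obtain ⟨g, hg, h1, h2, h3⟩ := h U hU Δ hΔ
      have h4 : χ g = 1 := (algebraMap ℚ_[ℓ] (AlgebraicClosure ℚ_[ℓ])).injective (by
        rw [map_one]; exact h2)
      refine ⟨g, hg, ?_, h2, h3⟩
      refine LinearMap.ext fun ψ => MultilinearMap.ext fun w => ?_
      have h5 : τ g⁻¹ = 1 := by
        have h6 : τ g⁻¹ * τ g = 1 := by rw [← map_mul, inv_mul_cancel, map_one]
        rw [h1, mul_one] at h6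
        exact h6
      rw [formRep_apply, h4, h5, one_zpow, one_mul]
      rfl

end

end Pool.Agent.Results.MP_c1bb77_ag.MixedPlacesSums
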