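import Mathlib
import Pool.Agent.R932.MtIndMain

/-!
# The Mumford-Tate conjecture for sums with motives of abelian type, from Frobenius eigenvalues

`T = T_1 ⊕ ... ⊕ T_r` is a polarised rational Hodge structure of level two, twisted to weight zero
(for example the transcendental part of `H^2(X)(1)`, `X` a surface or a product of surfaces; `c a`
says to which summand the `a`-th basis vector belongs), and `V` is any rational Hodge structure for
which the Lie algebra of the Mumford-Tate group has only the Hodge types `(-1,1)`, `(0,0)`,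
`(1,-1)`.  By Deligne this holds for all `V` in the tensor category generated by the `H^1` of
abelian varieties (for example `H^i` of abelian varieties, K3 surfaces, cubic fourfolds).

The Hodge structure `T` is an element of `HS n` (the starting files): it consists of the
intersection form `T.Q` and the Hodge operator `T.x`, which is `1`, `0`, `-1` on the pieces of type
`(1,-1)`, `(0,0)`, `(-1,1)`.  The condition `T.Big c p q` (the starting files) says: the only
endomorphisms of the rational Hodge structure `T` are those that are a rational scalar on each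
`T_i`, the Hodge numbers of `T_i` are `(p i, q i, p i)`, and (for `p i > 1`)
`2 (p i)^2 ((p i)^2 + 1) < (q i - 2 p i) (q i + p i)`.

**Theorem.** Let `p_i ≥ 2` for all `i`, and suppose that for every `i` there is an element `σ` of the
Galois group (for example a Frobenius element) with an eigenvalue `x` on `T_i` such that no
positive power of `x` lies in the multiplicative group generated by the eigenvalues of `σ` on
`V ⊗ ℚ_ℓ`.  Then the Mumford-Tate conjecture for `V ⊕ T` at `ℓ` is equivalent to the Mumford-Tate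
conjecture for `V` and for `T` at `ℓ`.

For one place this is a condition on two polynomials with rational coefficients. No nodal places
and no `p`-adic Hodge theory is used, and nothing is assumed about the topology of the images.

Idea of the proof: choose a homomorphism `k` from the multiplicative group to the additive group of
the field which is `0` on the eigenvalues on `V` and `1` at `x`. The operator `H` which acts on the
generalised eigenspace of `σ` for `y` as the scalar `k y` preserves all subspaces of the polynomial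
functions which are stable under right translation by a power of `σ`; so it lies in the Lie algebra
of the Zariski closure. It is zero on `V` and not zero on `T_i`. By the conjecture for `T` the
elements of the Lie algebra which vanish on `V` form an ideal of `⊕ so(T_i)`; since `so(T_i)` is
simple (proved here, with decomposable elements), it contains all of `so(T_i)`. So the monodromy
group contains `1 × SO(T)`, and by the theorem on sums in the starting files the same holds for the
Mumford-Tate group.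
-/

set_option autoImplicit false

namespace Pool.Agent.Results.MP_c1bb77_ag.SumsFromOneFrobenius

open MvPolynomial Matrix
open Pool.Agent.W544.PG (HS BD)

noncomputable section

section groups

variable {ι : Type} [Fintype ι] [DecidableEq ι]

/-- The value of a rational polynomial in the entries at a matrix. -/
def value {R : Type} [CommRing R] [Algebra ℚ R] (g : Matrix ι ι R)
    (f : MvPolynomial (ι × ι) ℚ) : R :=
  aeval (fun q : ι × ι => g q.1 q.2) f

/-- `G` is the set of complex points of an algebraic subgroup over `ℚ` of the general linear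
group. -/
def IsQGroup (G : Set (Matrix ι ι ℂ)) : Prop :=
  (∃ P : Set (MvPolynomial (ι × ι) ℚ), ∀ g, g ∈ G ↔ g.det ≠ 0 ∧ ∀ f ∈ P, value g f = 0) ∧
  1 ∈ G ∧ (∀ a ∈ G, ∀ b ∈ G, a * b ∈ G) ∧ ∀ a ∈ G, a⁻¹ ∈ G

/-- The complex points of the Mumford-Tate group: the smallest algebraic subgroup over `ℚ` which
contains `h z` for all `z`. -/
def mumfordTate (h : ℂ → Matrix ι ι ℂ) : Set (Matrix ι ι ℂ) :=
  {g | ∀ G, IsQGroup G → (∀ z, z ≠ 0 → h z ∈ G) → g ∈ G}

/-- The points of the Mumford-Tate group over a field `R`. -/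
def InMumfordTate {R : Type} [Field R] [Algebra ℚ R] (h : ℂ → Matrix ι ι ℂ)
    (g : Matrix ι ι R) : Prop :=
  ∀ f : MvPolynomial (ι × ι) ℚ, (∀ m ∈ mumfordTate h, value m f = 0) → value g f = 0

/-- The Lie algebra of the Mumford-Tate group (over the complex numbers): the tangent space at
`1`. -/
def lieMumfordTate (h : ℂ → Matrix ι ι ℂ) : Set (Matrix ι ι ℂ) :=
  {y | ∀ f : MvPolynomial (ι × ι) ℚ, (∀ m ∈ mumfordTate h, value m f = 0) →
    ∑ x : ι × ι, y x.1 x.2 * value (1 : Matrix ι ι ℂ) (pderiv x f) = 0}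

variable {ℓ : ℕ} [Fact ℓ.Prime] {Γ : Type} [Group Γ]

/-- The points of the identity component of the Zariski closure of `ρ(Γ)` over the algebraic
closure of `ℚ_ℓ`: a polynomial that vanishes on the image of a subgroup of finite index vanishes
at `g`. -/
def InMonodromy (ρ : Γ →* Matrix ι ι ℚ_[ℓ]) (g : Matrix ι ι (AlgebraicClosure ℚ_[ℓ])) : Prop :=
  ∀ f : MvPolynomial (ι × ι) (AlgebraicClosure ℚ_[ℓ]),
    (∃ Δ : Subgroup Γ, Δ.FiniteIndex ∧ ∀ s ∈ Δ,
      aeval (fun q : ι × ι => algebraMap ℚ_[ℓ] (AlgebraicClosure ℚ_[ℓ]) (ρ s q.1 q.2)) f = 0) →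
    aeval (fun q : ι × ι => g q.1 q.2) f = 0

/-- The Mumford-Tate conjecture: the two groups agree over `ℚ_ℓ`. -/
def MumfordTateConjecture (h : ℂ → Matrix ι ι ℂ) (ρ : Γ →* Matrix ι ι ℚ_[ℓ]) : Prop :=
  ∀ g : Matrix ι ι (AlgebraicClosure ℚ_[ℓ]), g.det ≠ 0 → (InMonodromy ρ g ↔ InMumfordTate h g)

end groups

variable {κ : Type} [Fintype κ] [DecidableEq κ] {n r : ℕ}

/-- A rational Hodge structure on `ℚ^κ`: the projections `e (a, b)` to the pieces of type `(a, b)`
of `ℂ^κ`; they are exchanged by complex conjugation, and the pieces of every weight are defined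
over `ℚ`. -/
structure RationalHodgeStructure (κ : Type) [Fintype κ] [DecidableEq κ] where
  /-- the types which occur -/
  types : Finset (ℤ × ℤ)
  /-- the projections -/
  e : ℤ × ℤ → Matrix κ κ ℂ
  mul : ∀ a ∈ types, ∀ b ∈ types, e a * e b = if a = b then e a else 0
  sum : ∑ a ∈ types, e a = 1
  conj : ∀ a ∈ types, a.swap ∈ types ∧ (e a).map (starRingEnd ℂ) = e a.swap
  weight : ∀ w : ℤ, ∃ P : Matrix κ κ ℚ,
    ∑ a ∈ types with a.1 + a.2 = w, e a = P.map (algebraMap ℚ ℂ)

/-- The action of `ℂ^×`: multiplication by `z ^ (-a) * conj z ^ (-b)` on the piece of type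
`(a, b)`. -/
def RationalHodgeStructure.h (V : RationalHodgeStructure κ) (z : ℂ) : Matrix κ κ ℂ :=
  ∑ a ∈ V.types, (z ^ (-a.1) * starRingEnd ℂ z ^ (-a.2)) • V.e a

/-- The operator which is `a - b` on the piece of type `(a, b)`. -/
def RationalHodgeStructure.X (V : RationalHodgeStructure κ) : Matrix κ κ ℂ :=
  ∑ a ∈ V.types, ((a.1 - a.2 : ℤ) : ℂ) • V.e a

/-- The Lie algebra of the Mumford-Tate group of `V` has only the Hodge types `(-1,1)`, `(0,0)`,
`(1,-1)`: the eigenvalues of the commutator with `V.X` on it are `-2`, `0`, `2`. -/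
def RationalHodgeStructure.AbelianType (V : RationalHodgeStructure κ) : Prop :=
  ∀ y ∈ lieMumfordTate V.h, ⁅V.X, ⁅V.X, ⁅V.X, y⁆⁆⁆ = (4 : ℂ) • ⁅V.X, y⁆

/-- The action of `ℂ^×` on `T`: multiplication by `conj z / z`, `1`, `z / conj z` on the parts where
`T.x` is `1`, `0`, `-1`. -/
def hodgeT (T : HS n) (z : ℂ) : Matrix (Fin n) (Fin n) ℂ :=
  1 + ((starRingEnd ℂ z / z - 1) / 2) • (T.x * T.x + T.x) +
    ((z / starRingEnd ℂ z - 1) / 2) • (T.x * T.x - T.x)

/-- The action of `ℂ^×` on `V ⊕ T`. -/
def hodge (V : RationalHodgeStructure κ) (T : HS n) (z : ℂ) :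
    Matrix (κ ⊕ Fin n) (κ ⊕ Fin n) ℂ :=
  fromBlocks (V.h z) 0 0 (hodgeT T z)

variable {ℓ : ℕ} [Fact ℓ.Prime] {Γ : Type} [Group Γ]

/-- An `ℓ`-adic integral matrix as a matrix over `ℚ_ℓ`. -/
def rat (g : Matrix (Fin n) (Fin n) ℤ_[ℓ]) : Matrix (Fin n) (Fin n) ℚ_[ℓ] :=
  g.map (algebraMap ℤ_[ℓ] ℚ_[ℓ])

/-- The representation `β` over `ℚ_ℓ`. -/
def galoisT (β : Γ →* Matrix (Fin n) (Fin n) ℤ_[ℓ]) : Γ →* Matrix (Fin n) (Fin n) ℚ_[ℓ] where
  toFun σ := rat (β σ)
  map_one' := (Pool.Agent.R932.qrep β).map_one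
  map_mul' := (Pool.Agent.R932.qrep β).map_mul

/-- The representation `α ⊕ β` of the Galois group on `V ⊕ T`. -/
def galois (α : Γ →* Matrix κ κ ℚ_[ℓ]) (β : Γ →* Matrix (Fin n) (Fin n) ℤ_[ℓ]) :
    Γ →* Matrix (κ ⊕ Fin n) (κ ⊕ Fin n) ℚ_[ℓ] where
  toFun σ := fromBlocks (α σ) 0 0 (rat (β σ))
  map_one' := (Pool.Agent.Y95.MT.tot α β).map_one
  map_mul' := (Pool.Agent.Y95.MT.tot α β).map_mul

/-- Some eigenvalue `x` of `σ` on `T_i` has no positive power in the multiplicative group generated
by the eigenvalues of `σ` on `V`. -/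
def IndependentEigenvalue (c : Fin n → Fin r) (α : Γ →* Matrix κ κ ℚ_[ℓ])
    (β : Γ →* Matrix (Fin n) (Fin n) ℤ_[ℓ]) (i : Fin r) (σ : Γ) : Prop :=
  ∃ x : (AlgebraicClosure ℚ_[ℓ])ˣ,
    (∃ w : Fin n → AlgebraicClosure ℚ_[ℓ], w ≠ 0 ∧ (∀ a, c a ≠ i → w a = 0) ∧
      (rat (β σ)).map (algebraMap ℚ_[ℓ] (AlgebraicClosure ℚ_[ℓ])) *ᵥ w =
        (x : AlgebraicClosure ℚ_[ℓ]) • w) ∧
    ∀ m : ℕ, 0 < m → x ^ m ∉ Subgroup.closure {y : (AlgebraicClosure ℚ_[ℓ])ˣ |
      ((α σ).map (algebraMap ℚ_[ℓ] (AlgebraicClosure ℚ_[ℓ]))).charpoly.IsRoot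
        (y : AlgebraicClosure ℚ_[ℓ])}

/-- **The Mumford-Tate conjecture for `V ⊕ T`, with `V` of abelian type and `p_i ≥ 2`, is equivalent
to the conjecture for `V` and `T`, if the Frobenius eigenvalues on `T_i` are independent of those on
`V`.** -/
theorem result (T : HS n) (c : Fin n → Fin r) (p q : Fin r → ℕ) (hT : T.Big c p q)
    (hp : ∀ i, 2 ≤ p i) (V : RationalHodgeStructure κ) (hV : V.AbelianType)
    (α : Γ →* Matrix κ κ ℚ_[ℓ]) (β : Γ →* Matrix (Fin n) (Fin n) ℤ_[ℓ])
    (hβ : ∀ σ, (rat (β σ))ᵀ * T.Q.map (algebraMap ℚ ℚ_[ℓ]) * rat (β σ) =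
      T.Q.map (algebraMap ℚ ℚ_[ℓ])) (hc : ∀ σ, BD c (β σ))
    (hind : ∀ i, ∃ σ, IndependentEigenvalue c α β i σ) :
    MumfordTateConjecture (hodge V T) (galois α β) ↔
      MumfordTateConjecture V.h α ∧ MumfordTateConjecture (hodgeT T) (galoisT β) := by
  refine Pool.Agent.R932.main_ind (T := T) (c := c) (p := p) (q := q) (v := α) (β := β) hT hp
    ⟨V.types, V.e, V.mul, V.sum, V.conj, V.weight⟩ hV ⟨hβ, hc⟩ fun i => ?_
  obtain ⟨σ, x, ⟨w, h1, h2, h3⟩, h4⟩ := hind i
  exact ⟨σ, x, ⟨w, h2, h1, h3⟩, h4⟩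

end

end Pool.Agent.Results.MP_c1bb77_ag.SumsFromOneFrobenius
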