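import Mathlib
import Pool.Agent.R931.ZG.Law

/-!
# The Mumford-Tate conjecture at a given prime, from finitely many Frobenius polynomials

Let `M` be the cohomology `H ^ i (X)` of a smooth projective variety `X` over a number field `K` (or a pure
motive over a number field, or over a finitely generated field `k` of characteristic zero), with `ℓ`-adic
realizations of dimension `N`.  `Γ` is the Galois group of `K` (or the fundamental group of a model of `k` over a
number field `K`, and `s` is given by a `K`-rational point).  Outside of a finite set `S` of places `v` the
motive has good reduction (along the point), with Frobenius polynomials `P v` independent of `ℓ`, and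
`(q v) ^ c` times a Frobenius eigenvalue is an algebraic integer.  We fix a prime number `ℓ`.  Let `𝔤` be the Lie
algebra of the Mumford-Tate group in the endomorphisms of the `ℓ`-adic realization (if the Hodge classes in
the tensor spaces of `M` are absolute Hodge classes), or of the `ℓ`-adic motivic Galois group; all we use is
collected in `IsMotivic`: it is reductive, it is determined by its tensors, and these are Tate tensors.  Let
`r` be its rank; no `P v` has more than `r` multiplicatively independent roots.

The *relations* between numbers `z_1, ..., z_N` are the vectors `n` of integers such that the product of
the `z_i ^ {n_i}` is a root of unity.  Let `R` be a set of vectors which has rank at most `N - r` (one takes the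
relations between the weights of the maximal torus of the Mumford-Tate group), and let `A` be
the group of permutations of `{1, ..., N}` which preserve `R`.  Let `τ` be an
automorphism of the algebraic closure of `ℚ_ℓ`.
An element `γ` of the image of the Galois group at `ℓ` has the *type* `a` if the eigenvalues of `ρ_ℓ(γ)` can be
written as `z_1, ..., z_N` with relations `R` and `τ (z_i) = z_{a(i)}` (no quotient of two of them being a root
of unity).  In the same way we define the types of the elements of the Lie algebra of the image.
The types of the Frobenius element at `v` can be read off from `P v`: if `P v` is separable modulo `ℓ`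
and `τ` induces the Frobenius automorphism of the residue field, then the cycle type of `a` is given by
the degrees of the factors of `P v` modulo `ℓ`.
For a group `H` of permutations let `Λ_H` be the lattice which is generated by `R` and by the vectors
`e_i - e_{a(i)}`, `a` in `H`.

**Theorem.**  Let `T` be a nonempty set of types which occur at `ℓ` for `τ`, and suppose that the algebra of
the endomorphisms which commute with `𝔤` has dimension `m` (at least).  Suppose that every subgroup `H` of `A`,
for which there is an element `y` of `A` which normalizes `H` such that all elements of `T` are conjugate in `A`
to elements of the coset `H * y`, satisfies the *lattice condition*: for all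
permutation groups `B` which contain `H` and have at least `m` orbits, the vectors `e_i - e_{b(i)}`, `b` in `B`,
are contained in `Λ_H`.  (For instance `H` has at most `m` orbits; if `𝔤` acts irreducibly, the condition
says that `Λ_H` contains all the vectors `e_i - e_j`.)

Then the `ℓ`-adic representation is semisimple (over all finite extensions of `K`), and the `ℓ`-adic
Tate tensors of all tensor powers of the realization and its dual are exactly the tensors killed by `𝔤`: the
Mumford-Tate conjecture holds for `M` at `ℓ`, and for all motives in the tensor category generated by `M`.

So if `M` satisfies the conjecture, then it can be proved at all primes `ℓ` where the group `G` is split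
by computing finitely many Frobenius polynomials, for example if the weights of `G` have multiplicity one,
`A` is the product of the Weyl group `W` and a central subgroup, and `W` satisfies the lattice condition (see
`latticeAt_of_central`, `forcesAt_of_central`; this includes `GSp_N`, the spin groups, `E_6`, `E_7`, and
`G_2` in its representation of dimension `7`): it is sufficient to find Frobenius polynomials whose types at
`ℓ` generate `W` invariably, together with one which splits over `ℚ_ℓ`.  Neither semisimplicity nor a
polarization nor anything about the image of the Galois group is assumed, and in particular no knowledge of the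
endomorphisms or of the connected components of the `ℓ`-adic monodromy group (in the methods of Serre,
Larsen-Pink, Zywina and others for abelian varieties these are given by the theorem of Faltings).
Contrary to the usual arguments with the degrees of
the factors, the eigenvalues at different places are compared here: a stable subspace determines
sets of eigenvalues at all places which correspond to each other under bijections which preserve the
multiplicative relations.  For instance the theorem applies if at `ℓ` all Frobenius polynomials have
factors of the same degree `d < N`.

The theorem is a criterion at a given prime; `ZeroOneLaw` in MP_3703a7_ag is about `100` percent of the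
primes, and it uses the types at another prime.  `TypesAtOnePrime` in MP_8f1292_ag is a criterion for the
semisimplicity which does not use the Lie algebra `𝔤`.

Idea of the proof.  Let `U` be a subspace of the realization, over the algebraic closure of `ℚ_ℓ`, which is
stable under an open subgroup.  At every good place `v`, `U` determines a set of Frobenius eigenvalues.  For two
good places consider the pencil of tangent vectors which is spanned by the logarithms of the Frobenius
elements: its members have at most `r` independent eigenvalues, so there is a bijection between the two
sets of eigenvalues which preserves the relations and the sets determined by all `U` at the same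
time.  The automorphism `τ` permutes the subspaces `U`; so we obtain a group `H` which preserves
the sets of all `U`, and a coset `H * y` which contains conjugates of all elements of `T`.
Let `𝔥 ≤ 𝔤` be the Lie algebra of the endomorphisms which kill all Tate tensors and preserve the invariant
subspaces; it contains the Lie algebra `𝔱` of a Frobenius torus, which is a Cartan subalgebra of `𝔤`.  The
`𝔥`-stable subspaces over the algebraic closure are sums of weight spaces of `𝔱`, so there are only finitely
many of them; they are permuted by the Galois group, and hence stable under an open subgroup, and their sets of
weights are stable under `H`.  Let `d` be the element of `𝔱` which corresponds to the sum of the roots of `𝔥`.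
The values of the roots of `𝔥` at `d` are nonnegative.  So the sums of the weight spaces for the weights `λ` with
`λ(d) ≥ x` are stable under `𝔥`, and `H` preserves the values `λ(d)`; hence `d` is orthogonal to `Λ_H` and to the
roots, and therefore `𝔥` is reductive.  The sum of the weight spaces for all weights in one class modulo the
lattice `Q` generated by the roots of `𝔥` is also stable under `𝔥`.  Hence the image of `Λ_H` is contained in `Q`.
A root of `𝔤` is the difference of two weights which are not separated by the endomorphisms commuting with
`𝔤`, so it is contained in `Q`; and this implies that `𝔥 = 𝔤`.
-/

set_option autoImplicit false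

namespace Pool.Agent.Results.MP_c1bb77_ag.TypesAtOnePrime

open NumberField IsDedekindDomain Polynomial Module Pool.Agent.Y114.TF Pool.Agent.Y114.GF
  Pool.Agent.Y114.MU Pool.Agent.Y114.RM Pool.Agent.R931.GD Pool.Agent.R931.ZL Pool.Agent.R931.ZM
  Pool.Agent.R931.PD Pool.Agent.R931.ZF Pool.Agent.R931.ZG

theorem result (K : Type) [Field K] [NumberField K] (Γ : Type) [Group Γ] [TopologicalSpace Γ]
    [IsTopologicalGroup Γ] [CompactSpace Γ] (s : Gal(AlgebraicClosure K/K) →* Γ)
    (hs : Continuous s)
    -- the `ℓ`-adic realizations
    (N : ℕ) (hN : 0 < N)
    (ρ : ∀ (ℓ : ℕ) [Fact ℓ.Prime], Rep1 Γ N ℓ) (hρ : ∀ (ℓ : ℕ) [Fact ℓ.Prime], Conts (ρ ℓ))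
    -- good reduction outside of a finite set of places
    (wt : ℤ) (c : ℕ) (S : Set (HeightOneSpectrum (𝓞 K))) (hS : S.Finite)
    (P : HeightOneSpectrum (𝓞 K) → ℚ[X])
    (hP : ∀ (ℓ : ℕ) [Fact ℓ.Prime], ∀ v ∉ S, ¬ Above v ℓ →
      GoodReduction (restrictTo (ρ ℓ) s) () wt v (P v))
    (hint : ∀ v ∉ S, IntegralAt c v (P v))
    -- at most `r` independent eigenvalues
    (r : ℕ) (hrank : ∀ v ∉ S, ¬ IndepRoots (r + 1) {P v})
    -- the relations, and their automorphism group
    (R : Set (Fin N → ℤ)) (hR : RankGE r R)
    -- the prime number `ℓ`, and the Lie algebra of the motivic Galois group at `ℓ`, of rank `r`
    (ℓ : ℕ) [Fact ℓ.Prime] (𝔤 : End1 N ℓ) (h𝔤 : Motivic (ρ ℓ) 𝔤) (hr : RankLE 𝔤 r)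
    -- the types at `ℓ`
    (T : Set (Equiv.Perm (Fin N))) (hne : T.Nonempty)
    (τ : Gal(PadicAlgCl ℓ/ℚ_[ℓ])) (htypes : ∀ a ∈ T, TypeOccurs s (ρ ℓ) R τ a)
    -- the condition on the permutation groups
    (m : ℕ) (hend : m ≤ commutantDim 𝔤) (hm : ForcesAt (relAut R) T (LatticeFull R m)) :
    Semisimple (ρ ℓ) ∧ TateTensorsOf (ρ ℓ) 𝔤 :=
  main_law_at (K := K) (Γ := Γ) (s := s) (N := N) (wt := wt) (c := c) (r := r) (S := S) (P := P)
    (ρ := ρ) ⟨hN, hs, hρ, hS, hP, hint, fun v hv => hrank v hv.1⟩ R hR ℓ T hne τ htypes 𝔤 h𝔤 hr m
    hend hm

end Pool.Agent.Results.MP_c1bb77_ag.TypesAtOnePrime
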